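import Mathlib

-- part Pool.Agent.P.MP_d36490_an.Szego
section

set_option autoImplicit false

open Finset Polynomial

namespace Pool.Agent.P.MP_d36490_an

/-- binomial sum attached to a coefficient sequence -/
noncomputable def E (n : ℕ) (a : ℕ → ℂ) (w : ℂ) : ℂ :=
  ∑ m ∈ range (n + 1), (n.choose m : ℂ) * a m * w ^ m

/-- zero-free on the open disc of radius r -/
def ZF (n : ℕ) (a : ℕ → ℂ) (r : ℝ) : Prop := ∀ w : ℂ, ‖w‖ < r → E n a w ≠ 0

noncomputable def Q (s : Multiset ℂ) : ℂ[X] := (s.map (fun g => 1 + C g * X)).prod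

noncomputable def EP (n : ℕ) (a : ℕ → ℂ) : ℂ[X] :=
  ∑ m ∈ range (n + 1), monomial m ((n.choose m : ℂ) * a m)

lemma EP_eval (n : ℕ) (a : ℕ → ℂ) (w : ℂ) : (EP n a).eval w = E n a w := by
  simp [EP, E, eval_finsetSum]

lemma EP_coeff (n : ℕ) (a : ℕ → ℂ) (m : ℕ) (hm : m ≤ n) :
    (EP n a).coeff m = (n.choose m : ℂ) * a m := by
  simp only [EP, finsetSum_coeff, coeff_monomial]
  rw [Finset.sum_eq_single m]
  · simp
  · intro b _ hb; simp [hb]
  · intro h; exact absurd (Finset.mem_range.2 (Nat.lt_succ_of_le hm)) h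

lemma EP_natDegree (n : ℕ) (a : ℕ → ℂ) : (EP n a).natDegree ≤ n := by
  unfold EP
  apply natDegree_sum_le_of_forall_le
  intro i hi
  exact (natDegree_monomial_le _).trans (Nat.lt_succ_iff.1 (Finset.mem_range.1 hi))

lemma EP_deriv_eval (n : ℕ) (a : ℕ → ℂ) (w : ℂ) :
    (derivative (EP (n + 1) a)).eval w = (n + 1) * E n (fun m => a (m + 1)) w := by
  unfold EP E
  rw [derivative_sum, eval_finsetSum, Finset.sum_range_succ', Finset.mul_sum]
  simp only [derivative_monomial, eval_monomial, Nat.cast_zero, mul_zero, zero_mul, add_zero,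
    Nat.add_sub_cancel]
  apply Finset.sum_congr rfl
  intro m _
  have h := Nat.add_one_mul_choose_eq n m
  have h' : ((n : ℂ) + 1) * (n.choose m : ℂ) = ((n + 1).choose (m + 1) : ℂ) * ((m : ℂ) + 1) := by
    exact_mod_cast h
  push_cast
  linear_combination (-(a (m + 1)) * w ^ m) * h'

lemma E_succ (n : ℕ) (a : ℕ → ℂ) (w : ℂ) :
    E (n + 1) a w = E n a w + w * E n (fun m => a (m + 1)) w := by
  unfold E
  have h := Finset.sum_choose_succ_mul (fun i _ => a i * w ^ i) n
  simp only [mul_assoc]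
  rw [h, Finset.mul_sum]
  congr 1
  apply Finset.sum_congr rfl
  intro m _
  ring

lemma Q_zero : Q 0 = 1 := by simp [Q]

lemma Q_cons (g : ℂ) (s : Multiset ℂ) : Q (g ::ₘ s) = (1 + C g * X) * Q s := by simp [Q]

lemma Q_natDegree (s : Multiset ℂ) : (Q s).natDegree ≤ s.card := by
  induction s using Multiset.induction_on with
  | empty => simp [Q]
  | cons g s ih =>
    rw [Q_cons, Multiset.card_cons]
    refine natDegree_mul_le.trans ?_
    have : (1 + C g * X : ℂ[X]).natDegree ≤ 1 := by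
      compute_degree
    omega

lemma Q_deriv (s : Multiset ℂ) (z : ℂ) (hz : ∀ g ∈ s, 1 + g * z ≠ 0) :
    (derivative (Q s)).eval z = (Q s).eval z * (s.map (fun g => g / (1 + g * z))).sum := by
  induction s using Multiset.induction_on with
  | empty => simp [Q]
  | cons g s ih =>
    have h1 : 1 + g * z ≠ 0 := hz g (Multiset.mem_cons_self _ _)
    have ih' := ih (fun x hx => hz x (Multiset.mem_cons_of_mem hx))
    rw [Q_cons, derivative_mul, eval_add, eval_mul, eval_mul, eval_mul, ih']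
    simp only [Multiset.map_cons, Multiset.sum_cons]
    simp
    field_simp

lemma factor (n : ℕ) (F : ℂ[X]) (hF : F.natDegree ≤ n)
    (h : ∀ w : ℂ, ‖w‖ < 1 → F.eval w ≠ 0) :
    ∃ s : Multiset ℂ, s.card = n ∧ (∀ g ∈ s, ‖g‖ ≤ 1) ∧ F = C (F.eval 0) * Q s := by
  have hsp := IsAlgClosed.splits F
  have hcard : F.roots.card = F.natDegree := (splits_iff_card_roots.mp hsp)
  have hr : ∀ r ∈ F.roots, 1 ≤ ‖r‖ := by
    intro r hr
    by_contra hlt
    exact h r (not_le.1 hlt) (isRoot_of_mem_roots hr)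
  refine ⟨F.roots.map (fun r => -r⁻¹) + Multiset.replicate (n - F.natDegree) 0, ?_, ?_, ?_⟩
  · simp [hcard]; omega
  · intro g hg
    rw [Multiset.mem_add] at hg
    rcases hg with hg | hg
    · obtain ⟨r, hr', rfl⟩ := Multiset.mem_map.1 hg
      rw [norm_neg, norm_inv]
      exact inv_le_one_of_one_le₀ (hr r hr')
    · rw [Multiset.eq_of_mem_replicate hg]; simp
  · have key : ∀ t : Multiset ℂ, (∀ r ∈ t, r ≠ 0) →
        (t.map (fun r => X - C r)).prod
          = C ((t.map (fun r => X - C r)).prod.eval 0) * Q (t.map (fun r => -r⁻¹)) := by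
      intro t
      induction t using Multiset.induction_on with
      | empty => simp [Q]
      | cons r t ih =>
        intro ht
        have hr0 : r ≠ 0 := ht r (Multiset.mem_cons_self _ _)
        have ih' := ih (fun x hx => ht x (Multiset.mem_cons_of_mem hx))
        simp only [Multiset.map_cons, Multiset.prod_cons, Q_cons, eval_mul, C_mul]
        have e1 : (X - C r : ℂ[X]) = C (eval 0 (X - C r)) * (1 + C (-r⁻¹) * X) := by
          simp only [eval_sub, eval_X, eval_C, zero_sub]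
          rw [mul_add, ← mul_assoc, ← C_mul]
          have : -r * -r⁻¹ = 1 := by field_simp
          rw [this]; simp; ring
        conv_lhs => rw [ih', e1]
        ring
    have hQ : Q (F.roots.map (fun r => -r⁻¹) + Multiset.replicate (n - F.natDegree) 0)
        = Q (F.roots.map (fun r => -r⁻¹)) := by
      simp [Q]
    rw [hQ]
    have hne : ∀ r ∈ F.roots, r ≠ 0 := by
      intro r hr' h0
      have := hr r hr'
      rw [h0] at this; simp at this; linarith
    have h2 := key F.roots hne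
    have h3 := hsp.eq_prod_roots
    have h4 : F.eval 0 = F.leadingCoeff * ((F.roots.map (fun r => X - C r)).prod.eval 0) := by
      conv_lhs => rw [h3]
      simp
    rw [h4, C_mul, mul_assoc, ← h2]
    exact h3

lemma disc_ineq (z g : ℂ) (hz : ‖z‖ ≤ 1) (hg : ‖g‖ ≤ 1) :
    ‖g + (starRingEnd ℂ) z‖ ≤ ‖1 + g * z‖ := by
  have hz2 : z.re ^ 2 + z.im ^ 2 ≤ 1 := by
    have := Complex.sq_norm z
    rw [Complex.normSq_apply] at this
    nlinarith [norm_nonneg z]
  have hg2 : g.re ^ 2 + g.im ^ 2 ≤ 1 := by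
    have := Complex.sq_norm g
    rw [Complex.normSq_apply] at this
    nlinarith [norm_nonneg g]
  have key : ‖g + (starRingEnd ℂ) z‖ ^ 2 ≤ ‖1 + g * z‖ ^ 2 := by
    rw [Complex.sq_norm, Complex.sq_norm, Complex.normSq_apply, Complex.normSq_apply]
    simp only [Complex.add_re, Complex.add_im, Complex.conj_re, Complex.conj_im, Complex.mul_re,
      Complex.mul_im, Complex.one_re, Complex.one_im]
    nlinarith [mul_nonneg (sub_nonneg.2 hz2) (sub_nonneg.2 hg2)]
  exact (pow_le_pow_iff_left₀ (norm_nonneg _) (norm_nonneg _) two_ne_zero).1 key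

lemma disc_ineq2 (z x : ℂ) (hz : ‖z‖ < 1) (hx : ‖x‖ < 1) :
    ‖x - z‖ < ‖1 - (starRingEnd ℂ) z * x‖ := by
  have hz2 : z.re ^ 2 + z.im ^ 2 < 1 := by
    have := Complex.sq_norm z
    rw [Complex.normSq_apply] at this
    nlinarith [norm_nonneg z]
  have hx2 : x.re ^ 2 + x.im ^ 2 < 1 := by
    have := Complex.sq_norm x
    rw [Complex.normSq_apply] at this
    nlinarith [norm_nonneg x]
  have key : ‖x - z‖ ^ 2 < ‖1 - (starRingEnd ℂ) z * x‖ ^ 2 := by
    rw [Complex.sq_norm, Complex.sq_norm, Complex.normSq_apply, Complex.normSq_apply]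
    simp only [Complex.sub_re, Complex.sub_im, Complex.conj_re, Complex.conj_im, Complex.mul_re,
      Complex.mul_im, Complex.one_re, Complex.one_im]
    nlinarith [mul_pos (sub_pos.2 hz2) (sub_pos.2 hx2)]
  exact lt_of_pow_lt_pow_left₀ 2 (norm_nonneg _) key

lemma one_add_ne (z g : ℂ) (hz : ‖z‖ < 1) (hg : ‖g‖ ≤ 1) : 1 + g * z ≠ 0 := by
  intro h
  have h1 : g * z = -1 := by linear_combination h
  have h2 : ‖g * z‖ = 1 := by rw [h1]; simp
  rw [norm_mul] at h2
  nlinarith [norm_nonneg z, norm_nonneg g]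

lemma mobius_bound (z x g : ℂ) (hz : ‖z‖ < 1) (hg : ‖g‖ ≤ 1) :
    ‖(1 - z * (starRingEnd ℂ) z) * (1 + (x - z) * (g / (1 + g * z)))
      - (1 - (starRingEnd ℂ) z * x)‖ ≤ ‖x - z‖ := by
  have h1 := one_add_ne z g hz hg
  have e : (1 - z * (starRingEnd ℂ) z) * (1 + (x - z) * (g / (1 + g * z)))
      - (1 - (starRingEnd ℂ) z * x) = (x - z) * ((g + (starRingEnd ℂ) z) / (1 + g * z)) := by
    have hi : (1 + g * z) * (1 + g * z)⁻¹ = 1 := mul_inv_cancel₀ h1
    simp only [div_eq_mul_inv]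
    linear_combination (-(x - z) * (starRingEnd ℂ) z) * hi
  rw [e, norm_mul, norm_div]
  have h2 : ‖g + (starRingEnd ℂ) z‖ / ‖1 + g * z‖ ≤ 1 :=
    (div_le_one (norm_pos_iff.2 h1)).2 (disc_ineq z g hz.le hg)
  nlinarith [norm_nonneg (x - z)]

lemma sum_bound (z x : ℂ) (hz : ‖z‖ < 1) (s : Multiset ℂ) (hs : ∀ g ∈ s, ‖g‖ ≤ 1) :
    ‖(1 - z * (starRingEnd ℂ) z) *
        ((s.card : ℂ) + (x - z) * (s.map (fun g => g / (1 + g * z))).sum)
      - (s.card : ℂ) * (1 - (starRingEnd ℂ) z * x)‖ ≤ s.card * ‖x - z‖ := by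
  induction s using Multiset.induction_on with
  | empty => simp
  | cons g s ih =>
    have ih' := ih (fun y hy => hs y (Multiset.mem_cons_of_mem hy))
    have h1 := mobius_bound z x g hz (hs g (Multiset.mem_cons_self _ _))
    simp only [Multiset.map_cons, Multiset.sum_cons, Multiset.card_cons]
    push_cast
    have := norm_add_le_of_le h1 ih'
    convert this using 1
    · congr 1; ring
    · ring

/-- Laguerre's theorem on the polar derivative -/
lemma laguerre (n : ℕ) (a : ℕ → ℂ) (h : ZF (n + 1) a 1) (x : ℂ) (hx : ‖x‖ < 1) :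
    ZF n (fun m => a m + x * a (m + 1)) 1 := by
  intro z hz h0
  obtain ⟨s, hcard, hs, hF⟩ := factor (n + 1) (EP (n + 1) a) (EP_natDegree _ _)
    (fun w hw => by rw [EP_eval]; exact h w hw)
  have hne : ∀ g ∈ s, 1 + g * z ≠ 0 := fun g hg => one_add_ne z g hz (hs g hg)
  have e1 : E n (fun m => a m + x * a (m + 1)) z
      = E n a z + x * E n (fun m => a (m + 1)) z := by
    unfold E
    rw [Finset.mul_sum, ← Finset.sum_add_distrib]
    apply Finset.sum_congr rfl
    intro m _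
    ring
  have e2 := E_succ n a z
  have e3 := EP_deriv_eval n a z
  have e4 : (derivative (EP (n + 1) a)).eval z
      = E (n + 1) a z * (s.map (fun g => g / (1 + g * z))).sum := by
    rw [← EP_eval]
    conv_lhs => rw [hF]
    conv_rhs => rw [hF]
    rw [derivative_C_mul, eval_mul, eval_mul, Q_deriv s z hne]
    simp only [eval_C]
    ring
  have hE := h z hz
  have e5 : E (n + 1) a z *
      ((s.card : ℂ) + (x - z) * (s.map (fun g => g / (1 + g * z))).sum) = 0 := by
    rw [hcard]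
    push_cast
    rw [e1] at h0
    linear_combination ((n : ℂ) + 1) * h0 + ((n : ℂ) + 1) * e2 - (x - z) * e4 + (x - z) * e3
  have e6 := (mul_eq_zero.1 e5).resolve_left hE
  have hb := sum_bound z x hz s hs
  rw [e6, hcard] at hb
  simp only [mul_zero, zero_sub, norm_neg, norm_mul, Complex.norm_natCast] at hb
  have := disc_ineq2 z x hz hx
  have hpos : (0 : ℝ) < ((n + 1 : ℕ) : ℝ) := by positivity
  nlinarith

/-- Grace-Walsh-Szego on the disc -/
lemma grace (w : ℂ) (hw : ‖w‖ < 1) (s : Multiset ℂ) :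
    ∀ (a : ℕ → ℂ), ZF s.card a 1 → (∀ g ∈ s, ‖g‖ ≤ 1) →
      ∑ m ∈ range (s.card + 1), a m * (Q s).coeff m * w ^ m ≠ 0 := by
  induction s using Multiset.induction_on with
  | empty =>
    intro a ha _
    have := ha 0 (by simp)
    simpa [E, Q] using this
  | cons g s ih =>
    intro a ha hs
    rw [Multiset.card_cons] at ha ⊢
    have hg : ‖g * w‖ < 1 := by
      rw [norm_mul]
      have := hs g (Multiset.mem_cons_self _ _)
      nlinarith [norm_nonneg w, norm_nonneg g]
    have h1 := ih _ (laguerre _ a ha (g * w) hg) (fun y hy => hs y (Multiset.mem_cons_of_mem hy))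
    have hz : (Q s).coeff (s.card + 1) = 0 :=
      coeff_eq_zero_of_natDegree_lt (Nat.lt_succ_of_le (Q_natDegree s))
    have e : ∑ m ∈ range (s.card + 1 + 1), a m * (Q (g ::ₘ s)).coeff m * w ^ m
        = ∑ m ∈ range (s.card + 1), (a m + g * w * a (m + 1)) * (Q s).coeff m * w ^ m := by
      rw [Q_cons, add_mul, one_mul]
      simp only [coeff_add, mul_add, add_mul, Finset.sum_add_distrib]
      congr 1
      · rw [Finset.sum_range_succ, hz]; simp
      · rw [Finset.sum_range_succ']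
        simp only [mul_assoc, coeff_C_mul, coeff_X_mul, coeff_X_mul_zero]
        simp only [mul_zero, zero_mul, add_zero]
        apply Finset.sum_congr rfl
        intro m _
        ring
    rw [e]
    exact h1

lemma szego_one (n : ℕ) (a b : ℕ → ℂ) (ha : ZF n a 1) (hb : ZF n b 1) :
    ZF n (fun m => a m * b m) 1 := by
  intro w hw
  obtain ⟨s, hcard, hs, hF⟩ := factor n (EP n b) (EP_natDegree _ _)
    (fun w hw => by rw [EP_eval]; exact hb w hw)
  have h0 : (EP n b).eval 0 ≠ 0 := by rw [EP_eval]; exact hb 0 (by simp)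
  have h1 := grace w hw s a (hcard ▸ ha) hs
  rw [hcard] at h1
  have e : E n (fun m => a m * b m) w
      = (EP n b).eval 0 * ∑ m ∈ range (n + 1), a m * (Q s).coeff m * w ^ m := by
    unfold E
    rw [Finset.mul_sum]
    apply Finset.sum_congr rfl
    intro m hm
    have h2 := EP_coeff n b m (Nat.lt_succ_iff.1 (Finset.mem_range.1 hm))
    have h3 : (EP n b).coeff m = (EP n b).eval 0 * (Q s).coeff m := by
      conv_lhs => rw [hF]
      rw [coeff_C_mul]
    linear_combination (a m * w ^ m) * (h3 - h2)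
  rw [e]
  exact mul_ne_zero h0 h1

lemma E_scale (n : ℕ) (a : ℕ → ℂ) (r w : ℂ) :
    E n (fun m => a m * r ^ m) w = E n a (r * w) := by
  unfold E
  apply Finset.sum_congr rfl
  intro m _
  ring

lemma ZF_scale (n : ℕ) (a : ℕ → ℂ) (r : ℝ) (hr : 0 < r) :
    ZF n a r ↔ ZF n (fun m => a m * (r : ℂ) ^ m) 1 := by
  constructor
  · intro h w hw
    rw [E_scale]
    apply h
    rw [norm_mul, Complex.norm_real, Real.norm_of_nonneg hr.le]
    nlinarith
  · intro h w hw
    have hr' : (r : ℂ) ≠ 0 := by exact_mod_cast hr.ne'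
    have := h (w / r) (by
      rw [norm_div, Complex.norm_real, Real.norm_of_nonneg hr.le, div_lt_one hr]; exact hw)
    rw [E_scale] at this
    rwa [mul_div_cancel₀ _ hr'] at this

/-- Schur-Szego composition theorem for discs -/
lemma szego (n : ℕ) (a b : ℕ → ℂ) (r s : ℝ) (hr : 0 < r) (hs : 0 < s)
    (ha : ZF n a r) (hb : ZF n b s) : ZF n (fun m => a m * b m) (r * s) := by
  rw [ZF_scale _ _ _ (mul_pos hr hs)]
  have := szego_one n _ _ ((ZF_scale _ _ _ hr).1 ha) ((ZF_scale _ _ _ hs).1 hb)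
  convert this using 2
  push_cast
  ring

lemma ZF_congr (n : ℕ) (a b : ℕ → ℂ) (r : ℝ) (h : ∀ m ≤ n, a m = b m) (ha : ZF n a r) :
    ZF n b r := by
  intro w hw
  have : E n b w = E n a w := by
    unfold E
    apply Finset.sum_congr rfl
    intro m hm
    rw [h m (Nat.lt_succ_iff.1 (Finset.mem_range.1 hm))]
  rw [this]
  exact ha w hw

lemma ZF_mono (n : ℕ) (a : ℕ → ℂ) (r s : ℝ) (h : s ≤ r) (ha : ZF n a r) : ZF n a s :=
  fun w hw => ha w (lt_of_lt_of_le hw h)

end Pool.Agent.P.MP_d36490_an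
end

-- part Pool.Agent.P.MP_d36490_an.Base
section

set_option autoImplicit false

open Finset Polynomial

namespace Pool.Agent.P.MP_d36490_an

/-- rising factorial -/
noncomputable def poch (x : ℂ) (j : ℕ) : ℂ := (ascPochhammer ℂ j).eval x

lemma poch_zero (x : ℂ) : poch x 0 = 1 := by simp [poch]

lemma poch_succ (x : ℂ) (j : ℕ) : poch x (j + 1) = poch x j * (x + j) := by
  simp [poch, ascPochhammer_succ_eval]

lemma poch_one (j : ℕ) : poch 1 j = (j.factorial : ℂ) := by
  simp [poch]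

lemma poch_ne_zero (x : ℂ) (hx : ∀ m : ℕ, x ≠ -(m : ℂ)) (j : ℕ) : poch x j ≠ 0 := by
  induction j with
  | zero => simp [poch_zero]
  | succ j ih =>
    rw [poch_succ]
    refine mul_ne_zero ih (fun h => hx j ?_)
    linear_combination h

lemma poch_neg_nat (n j : ℕ) :
    poch (-(n : ℂ)) j = (-1) ^ j * (n.choose j : ℂ) * (j.factorial : ℂ) := by
  induction j with
  | zero => simp [poch_zero]
  | succ j ih =>
    rw [poch_succ, ih]
    rcases le_or_gt j n with h | h
    · have h1 := Nat.choose_succ_right_eq n j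
      have h2 : (n.choose (j + 1) : ℂ) * ((j : ℂ) + 1) = (n.choose j : ℂ) * ((n : ℂ) - j) := by
        have := congrArg (Nat.cast : ℕ → ℂ) h1
        push_cast [h] at this
        exact this
      rw [Nat.factorial_succ]
      push_cast
      linear_combination ((-1) ^ j * (j.factorial : ℂ)) * h2
    · rw [Nat.choose_eq_zero_of_lt h, Nat.choose_eq_zero_of_lt (Nat.lt_succ_of_lt h)]
      simp

lemma E_mul_index (n : ℕ) (a : ℕ → ℂ) (w : ℂ) :
    E (n + 1) (fun m => (m : ℂ) * a m) w = (n + 1) * w * E n (fun m => a (m + 1)) w := by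
  unfold E
  rw [Finset.sum_range_succ', Finset.mul_sum]
  simp only [Nat.cast_zero, mul_zero, zero_mul, add_zero]
  apply Finset.sum_congr rfl
  intro m _
  have h := Nat.add_one_mul_choose_eq n m
  have h' : ((n : ℂ) + 1) * (n.choose m : ℂ) = ((n + 1).choose (m + 1) : ℂ) * ((m : ℂ) + 1) := by
    exact_mod_cast h
  push_cast
  linear_combination (-(a (m + 1)) * w ^ (m + 1)) * h'

noncomputable def G (x w : ℂ) (N : ℕ) : ℂ := E N (fun m => poch x (N - m)) w

lemma G_zero (x w : ℂ) : G x w 0 = 1 := by simp [G, E, poch_zero]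

lemma G_one (x w : ℂ) : G x w 1 = x + w := by
  simp [G, E, Finset.sum_range_succ, poch]

lemma G_rec (x w : ℂ) (N : ℕ) :
    G x w (N + 2) = ((N : ℂ) + 1 + x + w) * G x w (N + 1) - ((N : ℂ) + 1) * w * G x w N := by
  have h1 := E_succ (N + 1) (fun m => poch x (N + 2 - m)) w
  have h2 := E_mul_index N (fun m => poch x (N + 1 - m)) w
  have h3 : E (N + 1) (fun m => poch x (N + 2 - m)) w
      = (x + N + 1) * E (N + 1) (fun m => poch x (N + 1 - m)) w
        - E (N + 1) (fun m => (m : ℂ) * poch x (N + 1 - m)) w := by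
    unfold E
    rw [Finset.mul_sum, ← Finset.sum_sub_distrib]
    apply Finset.sum_congr rfl
    intro m hm
    have hm' : m ≤ N + 1 := Nat.lt_succ_iff.1 (Finset.mem_range.1 hm)
    have e : N + 2 - m = (N + 1 - m) + 1 := by omega
    simp only
    rw [e, poch_succ]
    push_cast [hm']
    ring
  have e1 : (fun m => poch x (N + 2 - (m + 1))) = fun m => poch x (N + 1 - m) := by
    funext m; congr 1; omega
  have e2 : (fun m => poch x (N + 1 - (m + 1))) = fun m => poch x (N - m) := by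
    funext m; congr 1; omega
  simp only [e1] at h1
  simp only [e2] at h2
  unfold G
  rw [h1, h3, h2]
  ring

lemma G_grow (x w : ℂ) (h : 2 * ‖w‖ + 1 ≤ x.re) (N : ℕ) :
    G x w N ≠ 0 ∧ ((N : ℝ) + 1) * ‖G x w N‖ ≤ ‖G x w (N + 1)‖ := by
  induction N with
  | zero =>
    refine ⟨by simp [G_zero], ?_⟩
    rw [G_zero, zero_add, G_one]
    have h1 := Complex.re_le_norm (x + w)
    have h2 := Complex.abs_re_le_norm w
    have h3 := neg_abs_le w.re
    simp only [Complex.add_re] at h1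
    simp only [Nat.cast_zero, zero_add, norm_one, mul_one]
    linarith [norm_nonneg w]
  | succ N ih =>
    obtain ⟨h0, h1⟩ := ih
    have hpos : 0 < ‖G x w N‖ := norm_pos_iff.2 h0
    have hne : G x w (N + 1) ≠ 0 := by
      rw [← norm_pos_iff]
      have : (0 : ℝ) < ((N : ℝ) + 1) * ‖G x w N‖ := by positivity
      linarith
    refine ⟨hne, ?_⟩
    rw [G_rec]
    have h2 := norm_sub_norm_le (((N : ℂ) + 1 + x + w) * G x w (N + 1))
      (((N : ℂ) + 1) * w * G x w N)
    rw [norm_mul, norm_mul, norm_mul] at h2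
    have h3 : ‖(N : ℂ) + 1‖ = (N : ℝ) + 1 := by
      have : ((N : ℂ) + 1) = ((N + 1 : ℕ) : ℂ) := by push_cast; ring
      rw [this, Complex.norm_natCast]; push_cast; ring
    have h4 : (N : ℝ) + 1 + x.re - ‖w‖ ≤ ‖(N : ℂ) + 1 + x + w‖ := by
      have h5 := Complex.re_le_norm ((N : ℂ) + 1 + x + w)
      have h6 := Complex.abs_re_le_norm w
      have h7 := neg_abs_le w.re
      simp only [Complex.add_re, Complex.natCast_re, Complex.one_re] at h5
      linarith
    rw [h3] at h2
    have h8 := mul_le_mul_of_nonneg_left h1 (norm_nonneg w)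
    have h9 := mul_le_mul_of_nonneg_right h4 (norm_nonneg (G x w (N + 1)))
    have h10 := mul_le_mul_of_nonneg_right h (norm_nonneg (G x w (N + 1)))
    push_cast
    nlinarith

/-- the Bessel factor -/
lemma ZF_bessel (lam : ℂ) (n : ℕ) (hn : 2 * ‖lam‖ + 4 ≤ n) :
    ZF n (fun m => poch ((n : ℂ) + lam) (n - m)) (n / 8) := by
  intro w hw
  refine (G_grow ((n : ℂ) + lam) w ?_ n).1
  have h6 := Complex.abs_re_le_norm lam
  have h7 := neg_abs_le lam.re
  simp only [Complex.add_re, Complex.natCast_re]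
  linarith [norm_nonneg lam]

/-- partial sums of the exponential series -/
lemma ZF_fact (n : ℕ) : ZF n (fun m => poch 1 (n - m)) (n / 20) := by
  intro w hw h0
  have e : E n (fun m => poch 1 (n - m)) w
      = (n.factorial : ℂ) * ∑ m ∈ range (n + 1), w ^ m / m.factorial := by
    unfold E
    rw [Finset.mul_sum]
    apply Finset.sum_congr rfl
    intro m hm
    have hm' : m ≤ n := Nat.lt_succ_iff.1 (Finset.mem_range.1 hm)
    have h1 := Nat.choose_mul_factorial_mul_factorial hm'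
    have h2 : (n.choose m : ℂ) * m.factorial * (n - m).factorial = n.factorial := by
      exact_mod_cast h1
    have h3 : (m.factorial : ℂ) ≠ 0 := by exact_mod_cast m.factorial_ne_zero
    simp only [poch_one]
    rw [← h2]
    field_simp
  rw [e] at h0
  have h1 : (n.factorial : ℂ) ≠ 0 := by exact_mod_cast n.factorial_ne_zero
  have h2 := (mul_eq_zero.1 h0).resolve_left h1
  have hw0 := norm_nonneg w
  have hN : (0 : ℝ) < (n : ℝ) + 1 := by positivity
  have h3 := Complex.exp_bound' (x := w) (n := n + 1) (by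
    rw [div_le_iff₀ (by positivity)]
    push_cast
    linarith)
  rw [h2, sub_zero, Complex.norm_exp] at h3
  have h4 : ‖w‖ ^ (n + 1) ≤ (((n : ℝ) + 1) / 20) ^ (n + 1) :=
    pow_le_pow_left₀ hw0 (by linarith) _
  have h5 := Real.pow_div_factorial_le_exp ((n : ℝ) + 1) hN.le (n + 1)
  have h6 : ‖w‖ ^ (n + 1) / ((n + 1).factorial : ℝ)
      ≤ Real.exp ((n : ℝ) + 1) / 20 ^ (n + 1) := by
    calc ‖w‖ ^ (n + 1) / ((n + 1).factorial : ℝ)
        ≤ (((n : ℝ) + 1) / 20) ^ (n + 1) / ((n + 1).factorial : ℝ) := by gcongr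
      _ = (((n : ℝ) + 1) ^ (n + 1) / ((n + 1).factorial : ℝ)) / 20 ^ (n + 1) := by
          rw [div_pow]; ring
      _ ≤ _ := by gcongr
  have h7 : Real.exp (-((n : ℝ) + 1)) ≤ Real.exp w.re := by
    apply Real.exp_le_exp.2
    have h8 := Complex.abs_re_le_norm w
    have h9 := neg_abs_le w.re
    linarith
  have h10 : Real.exp ((n : ℝ) + 1) = Real.exp 1 ^ (n + 1) := by
    rw [← Real.exp_nat_mul]; congr 1; push_cast; ring
  have h11 : Real.exp (-((n : ℝ) + 1)) * Real.exp ((n : ℝ) + 1) = 1 := by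
    rw [← Real.exp_add]; simp
  have h12 : (1 : ℝ) ≤ Real.exp ((n : ℝ) + 1) / 20 ^ (n + 1) * 2 * Real.exp ((n : ℝ) + 1) := by
    have := Real.exp_pos ((n : ℝ) + 1)
    nlinarith
  have h13 : Real.exp ((n : ℝ) + 1) / 20 ^ (n + 1) * 2 * Real.exp ((n : ℝ) + 1)
      = 2 * (Real.exp 1 * Real.exp 1 / 20) ^ (n + 1) := by
    rw [h10, div_pow, mul_pow]; ring
  have h14 : Real.exp 1 * Real.exp 1 / 20 ≤ 0.4 := by
    have := Real.exp_one_lt_d9
    have := Real.exp_pos 1
    nlinarith
  have h15 : (Real.exp 1 * Real.exp 1 / 20) ^ (n + 1) ≤ 0.4 := by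
    have hp : 0 ≤ Real.exp 1 * Real.exp 1 / 20 := by positivity
    calc _ ≤ (Real.exp 1 * Real.exp 1 / 20) ^ 1 :=
          pow_le_pow_of_le_one hp (by linarith) (by omega)
      _ ≤ _ := by simpa using h14
  linarith

lemma geom_ne_zero (t : ℕ → ℂ) (n : ℕ) (h0 : t 0 ≠ 0)
    (h : ∀ i < n, 3 * ‖t (i + 1)‖ ≤ ‖t i‖) : ∑ i ∈ range (n + 1), t i ≠ 0 := by
  have key : ∀ k ≤ n, ‖∑ i ∈ range (k + 1), t i - t 0‖ ≤ ‖t 0‖ / 2 - ‖t k‖ / 2 := by
    intro k
    induction k with
    | zero => intro _; simp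
    | succ k ih =>
      intro hk
      have h1 := ih (by omega)
      have h2 := h k (by omega)
      rw [Finset.sum_range_succ, add_sub_right_comm]
      have := norm_add_le (∑ i ∈ range (k + 1), t i - t 0) (t (k + 1))
      linarith
  intro hs
  have h1 := key n le_rfl
  rw [hs, zero_sub, norm_neg] at h1
  have := norm_pos_iff.2 h0
  linarith [norm_nonneg (t n)]

lemma binom_transform (w : ℂ) (n : ℕ) : ∀ d : ℕ → ℂ,
    E n (fun m => E m d 1) w
      = ∑ i ∈ range (n + 1), (n.choose i : ℂ) * (d i * w ^ i * (1 + w) ^ (n - i)) := by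
  induction n with
  | zero => intro d; simp [E]
  | succ n ih =>
    intro d
    rw [E_succ, Finset.sum_choose_succ_mul (fun i j => d i * w ^ i * (1 + w) ^ j) n]
    have e : E n (fun m => E (m + 1) d 1) w
        = E n (fun m => E m d 1) w + E n (fun m => E m (fun i => d (i + 1)) 1) w := by
      simp only [E_succ]
      unfold E
      rw [← Finset.sum_add_distrib]
      apply Finset.sum_congr rfl
      intro m _
      ring
    rw [e, ih, ih, mul_add, ← add_assoc, Finset.mul_sum, Finset.mul_sum, ← Finset.sum_add_distrib]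
    congr 1
    · apply Finset.sum_congr rfl
      intro m hm
      have hm' : m ≤ n := Nat.lt_succ_iff.1 (Finset.mem_range.1 hm)
      have e2 : n + 1 - m = (n - m) + 1 := by omega
      rw [e2]; ring
    · apply Finset.sum_congr rfl
      intro m _
      ring

lemma diff_table (a b : ℂ) (hb : ∀ m : ℕ, b ≠ -(m : ℂ)) (n : ℕ) (m : ℕ) : ∀ i, m + i ≤ n →
    poch (b - a) i * poch a (n - m - i) / poch b (n - m)
      = E m (fun t => poch (b - a) (i + t) * poch a (n - (i + t)) / poch b n) 1 := by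
  induction m with
  | zero => intro i _; simp [E]
  | succ m ih =>
    intro i hi
    rw [E_succ, ← ih i (by omega)]
    have h2 := ih (i + 1) (by omega)
    have e : (fun t => poch (b - a) (i + 1 + t) * poch a (n - (i + 1 + t)) / poch b n)
        = fun t => poch (b - a) (i + (t + 1)) * poch a (n - (i + (t + 1))) / poch b n := by
      funext t
      rw [show i + 1 + t = i + (t + 1) by ring]
    rw [e] at h2
    rw [← h2]
    obtain ⟨k, rfl⟩ := Nat.exists_eq_add_of_le hi
    have e1 : m + 1 + i + k - (m + 1) - i = k := by omega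
    have e2 : m + 1 + i + k - (m + 1) = i + k := by omega
    have e3 : m + 1 + i + k - m - i = k + 1 := by omega
    have e4 : m + 1 + i + k - m = (i + k) + 1 := by omega
    have e5 : m + 1 + i + k - m - (i + 1) = k := by omega
    rw [e1, e2, e3, e5, e4, poch_succ, poch_succ, poch_succ]
    have h3 := poch_ne_zero b hb (i + k)
    have h4 : b + ((i + k : ℕ) : ℂ) ≠ 0 := fun h => hb (i + k) (by linear_combination h)
    field_simp
    push_cast
    ring

lemma exists_K (a : ℂ) (ha : ∀ m : ℕ, a ≠ -(m : ℂ)) :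
    ∃ K : ℝ, 1 ≤ K ∧ ∀ N : ℕ, (N : ℝ) + 1 ≤ K * ‖a + N‖ := by
  obtain ⟨M, hM⟩ := exists_nat_ge (2 * ‖a‖ + 1)
  obtain ⟨K, hK⟩ := ((Set.finite_lt_nat M).image
    (fun N : ℕ => ((N : ℝ) + 1) / ‖a + N‖)).bddAbove
  refine ⟨max K 2, le_trans (by norm_num) (le_max_right _ _), fun N => ?_⟩
  have hpos : 0 < ‖a + N‖ := norm_pos_iff.2 (fun h => ha N (by linear_combination h))
  rcases lt_or_ge N M with h | h
  · have h1 : ((N : ℝ) + 1) / ‖a + N‖ ≤ K := hK ⟨N, h, rfl⟩
    rw [div_le_iff₀ hpos] at h1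
    have := mul_le_mul_of_nonneg_right (le_max_left K 2) hpos.le
    linarith
  · have h1 : (M : ℝ) ≤ N := by exact_mod_cast h
    have h2 := Complex.re_le_norm (a + N)
    have h6 := Complex.abs_re_le_norm a
    have h7 := neg_abs_le a.re
    simp only [Complex.add_re, Complex.natCast_re] at h2
    have := mul_le_mul_of_nonneg_right (le_max_right K 2) hpos.le
    linarith

/-- the Gauss factor, through the Pfaff transformation -/
lemma ZF_ratio (a b : ℂ) (ha : ∀ m : ℕ, a ≠ -(m : ℂ)) (hb : ∀ m : ℕ, b ≠ -(m : ℂ)) :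
    ∃ r : ℝ, 0 < r ∧ ∀ n : ℕ, ZF n (fun m => poch a (n - m) / poch b (n - m)) r := by
  obtain ⟨K, hK1, hK⟩ := exists_K a ha
  set L : ℝ := K * (1 + ‖b - a‖) with hL
  have hL1 : 1 ≤ L := by nlinarith [norm_nonneg (b - a)]
  refine ⟨1 / (6 * L), by positivity, fun n => ?_⟩
  apply ZF_congr n
    (fun m => E m (fun t => poch (b - a) t * poch a (n - t) / poch b n) 1)
  · intro m hm
    have := diff_table a b hb n m 0 (by omega)
    simp only [zero_add, poch_zero, one_mul, Nat.sub_zero] at this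
    exact this.symm
  intro w hw
  rw [binom_transform]
  have hw0 := norm_nonneg w
  have hw1 : 6 * L * ‖w‖ < 1 := by
    rw [lt_div_iff₀ (by positivity)] at hw
    linarith
  have hw2 : 1 / 2 ≤ ‖1 + w‖ := by
    have h1 := norm_sub_norm_le (1 : ℂ) (-w)
    simp only [norm_one, norm_neg, sub_neg_eq_add] at h1
    nlinarith
  have hw3 : (1 + w) ≠ 0 := by
    rw [← norm_pos_iff]; linarith
  apply geom_ne_zero
  · simp only [Nat.choose_zero_right, Nat.cast_one, poch_zero, one_mul, pow_zero, mul_one,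
      Nat.sub_zero]
    exact mul_ne_zero (div_ne_zero (poch_ne_zero a ha n) (poch_ne_zero b hb n)) (pow_ne_zero _ hw3)
  · intro i hi
    obtain ⟨k, rfl⟩ := Nat.exists_eq_add_of_lt hi
    have e1 : i + k + 1 - (i + 1) = k := by omega
    have e2 : i + k + 1 - i = k + 1 := by omega
    rw [e1, e2, poch_succ (b - a) i, poch_succ a k, pow_succ w i, pow_succ (1 + w) k]
    simp only [norm_mul, norm_div, Complex.norm_natCast]
    have h1 := Nat.choose_succ_right_eq (i + k + 1) i
    rw [e2] at h1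
    have h2 : ((i + k + 1).choose (i + 1) : ℝ) * ((i : ℝ) + 1)
        = ((i + k + 1).choose i : ℝ) * ((k : ℝ) + 1) := by exact_mod_cast h1
    have h3 := hK k
    have h4 : ‖b - a + i‖ ≤ (1 + ‖b - a‖) * ((i : ℝ) + 1) := by
      have := norm_add_le (b - a) (i : ℂ)
      rw [Complex.norm_natCast] at this
      have h5 : (0 : ℝ) ≤ i := by positivity
      nlinarith [norm_nonneg (b - a)]
    have h6 : 3 * (((i + k + 1).choose (i + 1) : ℝ) * ‖b - a + i‖ * ‖w‖)
        ≤ ((i + k + 1).choose i : ℝ) * ‖a + k‖ * ‖1 + w‖ := by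
      have hc : (0 : ℝ) ≤ ((i + k + 1).choose (i + 1) : ℝ) := by positivity
      have hc' : (0 : ℝ) ≤ ((i + k + 1).choose i : ℝ) := by positivity
      calc 3 * (((i + k + 1).choose (i + 1) : ℝ) * ‖b - a + i‖ * ‖w‖)
          ≤ 3 * (((i + k + 1).choose (i + 1) : ℝ) * ((1 + ‖b - a‖) * ((i : ℝ) + 1)) * ‖w‖) := by
            gcongr
        _ = 3 * (((i + k + 1).choose i : ℝ) * ((k : ℝ) + 1) * (1 + ‖b - a‖) * ‖w‖) := by
            rw [← h2]; ring
        _ ≤ 3 * (((i + k + 1).choose i : ℝ) * (K * ‖a + k‖) * (1 + ‖b - a‖) * ‖w‖) := by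
            gcongr
        _ = ((i + k + 1).choose i : ℝ) * ‖a + k‖ * (3 * L * ‖w‖) := by rw [hL]; ring
        _ ≤ _ := by
            gcongr
            linarith
    have h7 : 0 ≤ ‖poch (b - a) i‖ * ‖poch a k‖ / ‖poch b (i + k + 1)‖ * ‖w ^ i‖ * ‖(1 + w) ^ k‖ := by
      positivity
    have h8 := mul_le_mul_of_nonneg_left h6 h7
    calc _ = ‖poch (b - a) i‖ * ‖poch a k‖ / ‖poch b (i + k + 1)‖ * ‖w ^ i‖ * ‖(1 + w) ^ k‖ *
          (3 * (((i + k + 1).choose (i + 1) : ℝ) * ‖b - a + i‖ * ‖w‖)) := by ring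
      _ ≤ _ := h8
      _ = _ := by ring

lemma ZF_single (a : ℂ) (ha : ∀ m : ℕ, a ≠ -(m : ℂ)) :
    ∃ r : ℝ, 0 < r ∧ ∀ n : ℕ, 1 ≤ n → ZF n (fun m => poch a (n - m)) (r * n) := by
  have h1 : ∀ m : ℕ, (1 : ℂ) ≠ -(m : ℂ) := by
    intro m h
    have h2 : ((m + 1 : ℕ) : ℂ) = 0 := by push_cast; linear_combination h
    exact absurd (Nat.cast_eq_zero.1 h2) (by omega)
  obtain ⟨r, hr, h⟩ := ZF_ratio a 1 ha h1
  refine ⟨r / 20, by positivity, fun n hn => ?_⟩
  have hn' : (0 : ℝ) < n := by exact_mod_cast hn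
  have := szego n _ _ _ _ hr (by positivity) (h n) (ZF_fact n)
  have e : r * ((n : ℝ) / 20) = r / 20 * n := by ring
  rw [e] at this
  refine ZF_congr n _ _ _ (fun m _ => ?_) this
  rw [div_mul_cancel₀ _ (poch_ne_zero 1 h1 _)]

lemma ZF_prod {ι : Type} (s : Finset ι) (n : ℕ) (a : ℕ → ℂ) (r : ℝ) (hr : 0 < r)
    (f : ι → ℕ → ℂ) (ρ : ι → ℝ) (hρ : ∀ i, 0 < ρ i) (ha : ZF n a r)
    (hf : ∀ i, ZF n (f i) (ρ i)) :
    ZF n (fun m => a m * ∏ i ∈ s, f i m) (r * ∏ i ∈ s, ρ i) := by
  classical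
  induction s using Finset.induction_on with
  | empty => simpa using ha
  | insert i s hi ih =>
    have := szego n _ _ _ _ (mul_pos hr (Finset.prod_pos (fun i _ => hρ i))) (hρ i) ih (hf i)
    simp only [Finset.prod_insert hi]
    convert this using 1
    · funext m; ring
    · ring

end Pool.Agent.P.MP_d36490_an
end

-- part Pool.Agent.P.MP_d36490_an.Main
section

set_option autoImplicit false

open Finset Polynomial

namespace Pool.Agent.P.MP_d36490_an

lemma roots_bounded (n : ℕ) (A : ℕ → ℂ) (h0 : A 0 ≠ 0) :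
    ∃ R : ℝ, ∀ z : ℂ, ∑ j ∈ range (n + 1), A j * z ^ j = 0 → ‖z‖ ≤ R := by
  set F : ℂ[X] := ∑ j ∈ range (n + 1), monomial j (A j) with hF
  have hev : ∀ z, F.eval z = ∑ j ∈ range (n + 1), A j * z ^ j := by
    intro z; simp [hF, eval_finsetSum]
  have hne : F ≠ 0 := by
    intro h
    have := hev 0
    rw [h, Finset.sum_range_succ'] at this
    simp at this
    exact h0 this.symm
  obtain ⟨R, hR⟩ := ((F.roots.toFinset.finite_toSet).image (fun z : ℂ => ‖z‖)).bddAbove
  refine ⟨R, fun z hz => hR ⟨z, ?_, rfl⟩⟩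
  simp [hne, hev, hz]

lemma E_reverse (n : ℕ) (α : ℕ → ℂ) (z : ℂ) (hz : z ≠ 0) :
    E n (fun m => α (n - m)) (-z⁻¹) * (-z) ^ n
      = ∑ j ∈ range (n + 1), (-1) ^ j * (n.choose j : ℂ) * α j * z ^ j := by
  unfold E
  rw [Finset.sum_mul, ← Finset.sum_range_reflect]
  apply Finset.sum_congr rfl
  intro j hj
  have hj' : j ≤ n := Nat.lt_succ_iff.1 (Finset.mem_range.1 hj)
  obtain ⟨k, rfl⟩ := Nat.exists_eq_add_of_le hj'
  have e1 : j + k + 1 - 1 - j = k := by omega
  have e2 : j + k - k = j := by omega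
  simp only [e1, e2]
  rw [Nat.choose_symm_add, pow_add]
  have h1 : (-z⁻¹) ^ k * (-z) ^ k = 1 := by
    rw [← mul_pow]
    have : -z⁻¹ * -z = 1 := by field_simp
    rw [this, one_pow]
  rw [neg_pow z j]
  linear_combination (((j + k).choose k : ℂ) * α j * ((-1) ^ j * z ^ j)) * h1

lemma main_zf (q d : ℕ) (lam : ℂ) (a : Fin (q + d) → ℂ) (b : Fin q → ℂ)
    (ha : ∀ k, ∀ m : ℕ, a k ≠ -(m : ℂ)) (hb : ∀ k, ∀ m : ℕ, b k ≠ -(m : ℂ)) :
    ∃ c : ℝ, 0 < c ∧ ∃ n0 : ℕ, ∀ n : ℕ, n0 ≤ n →
      ZF n (fun m => poch ((n : ℂ) + lam) (n - m) * (∏ k, poch (a k) (n - m))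
        / (∏ k, poch (b k) (n - m))) (c * (n : ℝ) ^ (d + 1)) := by
  choose r hr hr' using fun k : Fin q => ZF_ratio (a (Fin.castAdd d k)) (b k) (ha _) (hb k)
  choose s hs hs' using fun k : Fin d => ZF_single (a (Fin.natAdd q k)) (ha _)
  obtain ⟨n0, hn0⟩ := exists_nat_ge (2 * ‖lam‖ + 4)
  have hpr : 0 < ∏ k, r k := Finset.prod_pos (fun k _ => hr k)
  have hps : 0 < ∏ k, s k := Finset.prod_pos (fun k _ => hs k)
  refine ⟨(∏ k, r k) * (∏ k, s k) / 8, by positivity, n0, fun n hn => ?_⟩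
  have hn' : (n0 : ℝ) ≤ n := by exact_mod_cast hn
  have hn4 : (4 : ℝ) ≤ n := by linarith [norm_nonneg lam]
  have hn1 : 1 ≤ n := by
    have : (1 : ℝ) ≤ n := by linarith
    exact_mod_cast this
  have h1 := ZF_bessel lam n (by linarith)
  have h2 := ZF_prod univ n _ _ (by positivity) _ r hr h1 (fun k => hr' k n)
  have h3 := ZF_prod univ n _ _ (by positivity) _ (fun k => s k * n)
    (fun k => mul_pos (hs k) (by positivity)) h2 (fun k => hs' k n hn1)
  convert h3 using 1
  · funext m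
    rw [Fin.prod_univ_add, Finset.prod_div_distrib]
    ring
  · rw [Finset.prod_mul_distrib]
    simp only [Finset.prod_const, Finset.card_univ, Fintype.card_fin]
    ring

theorem main (p q : ℕ) (hpq : q ≤ p) (lam : ℂ) (a : Fin p → ℂ) (b : Fin q → ℂ)
    (ha : ∀ k, ∀ m : ℕ, a k ≠ -(m : ℂ)) (hb : ∀ k, ∀ m : ℕ, b k ≠ -(m : ℂ)) :
    ∃ M : ℝ, ∀ n : ℕ, 1 ≤ n → ∀ z : ℂ,
      ∑ j ∈ Finset.range (n + 1),
        (ascPochhammer ℂ j).eval (-(n : ℂ)) * (ascPochhammer ℂ j).eval ((n : ℂ) + lam)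
          * (∏ k, (ascPochhammer ℂ j).eval (a k)) / (∏ k, (ascPochhammer ℂ j).eval (b k))
          * (z ^ j / (j.factorial : ℂ)) = 0 →
      ‖z‖ ≤ M * (n : ℝ) ^ ((q : ℤ) - (p : ℤ) - 1) := by
  obtain ⟨d, rfl⟩ := Nat.exists_eq_add_of_le hpq
  obtain ⟨c, hc, n0, h⟩ := main_zf q d lam a b ha hb
  have hsum : ∀ (n : ℕ) (z : ℂ), ∑ j ∈ Finset.range (n + 1),
        (ascPochhammer ℂ j).eval (-(n : ℂ)) * (ascPochhammer ℂ j).eval ((n : ℂ) + lam)
          * (∏ k, (ascPochhammer ℂ j).eval (a k)) / (∏ k, (ascPochhammer ℂ j).eval (b k))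
          * (z ^ j / (j.factorial : ℂ))
      = ∑ j ∈ range (n + 1), (-1) ^ j * (n.choose j : ℂ) *
        (poch ((n : ℂ) + lam) j * (∏ k, poch (a k) j) / (∏ k, poch (b k) j)) * z ^ j := by
    intro n z
    apply Finset.sum_congr rfl
    intro j _
    have h1 := poch_neg_nat n j
    unfold poch at h1 ⊢
    rw [h1]
    have h3 : (j.factorial : ℂ) ≠ 0 := by exact_mod_cast j.factorial_ne_zero
    field_simp
  choose R hR using fun n : ℕ => roots_bounded n (fun j => (-1) ^ j * (n.choose j : ℂ) *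
        (poch ((n : ℂ) + lam) j * (∏ k, poch (a k) j) / (∏ k, poch (b k) j)))
        (by simp [poch_zero])
  obtain ⟨M, hM⟩ := ((Set.finite_lt_nat n0).image
    (fun n : ℕ => R n * (n : ℝ) ^ (d + 1))).bddAbove
  refine ⟨max M (1 / c), fun n hn z hz => ?_⟩
  rw [hsum] at hz
  have hn' : (0 : ℝ) < n := by exact_mod_cast hn
  have hpow : (0 : ℝ) < (n : ℝ) ^ (d + 1) := by positivity
  have e : (n : ℝ) ^ ((q : ℤ) - ((q + d : ℕ) : ℤ) - 1) = ((n : ℝ) ^ (d + 1))⁻¹ := by
    rw [← zpow_natCast, ← zpow_neg]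
    congr 1
    push_cast
    ring
  rw [e, ← div_eq_mul_inv, le_div_iff₀ hpow]
  rcases lt_or_ge n n0 with h1 | h1
  · have h2 : R n * (n : ℝ) ^ (d + 1) ≤ M := hM ⟨n, h1, rfl⟩
    have h3 := mul_le_mul_of_nonneg_right (hR n z hz) hpow.le
    exact h3.trans (h2.trans (le_max_left _ _))
  · refine le_trans ?_ (le_max_right _ _)
    by_contra hcon
    rw [not_le, div_lt_iff₀ hc] at hcon
    have hz0 : z ≠ 0 := by
      rintro rfl
      simp at hcon
      linarith
    have hzn : 0 < ‖z‖ := norm_pos_iff.2 hz0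
    have h2 := h n h1 (-z⁻¹) (by
      rw [norm_neg, norm_inv, inv_eq_one_div, div_lt_iff₀ hzn]
      linarith)
    have h3 := E_reverse n (fun j => poch ((n : ℂ) + lam) j * (∏ k, poch (a k) j)
      / (∏ k, poch (b k) j)) z hz0
    rw [hz] at h3
    exact mul_ne_zero h2 (pow_ne_zero _ (neg_ne_zero.2 hz0)) h3

end Pool.Agent.P.MP_d36490_an
end
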